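import Pool.Agent.H84GF.Wt

/-!
# The combinatorics of the missing roots
-/

set_option autoImplicit false

namespace Pool.Agent.H84GF

variable {n : ℕ}

theorem comb (P : Fin n → Fin n → Prop) (hsymm : ∀ i j, P i j → P j i)
    (hbr : ∀ i j k, i ≠ j → k ≠ j.rev → k ≠ i.rev → P i j → P j.rev k → P i k) {s : ℕ} (hs : s + 3 ≤ n) (h5 : 5 ≤ n)
    (h6 : n ≠ 6) (hD : ∀ D : Finset ℤ, (∀ d ∈ D, ∃ i j, i ≠ j ∧ j ≠ i.rev ∧ ¬ P i j ∧ wt i + wt j = d) → D.card ≤ s) :
    ∀ i j, i ≠ j → j ≠ i.rev → P i j := by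
  classical
  intro a b hab hab' 
  by_contra hP
  have hba' : a ≠ b.rev := fun h => hab' (by rw [h, Fin.rev_rev])
  obtain ⟨T, hT⟩ : ∃ T : Finset (Fin n), T = {a, a.rev, b, b.rev} := ⟨_, rfl⟩
  obtain ⟨J, hJ⟩ : ∃ J : Finset (Fin n), J = Finset.univ \ T := ⟨_, rfl⟩
  have memJ : ∀ j, j ∈ J ↔ j ≠ a ∧ j ≠ a.rev ∧ j ≠ b ∧ j ≠ b.rev := by
    intro j
    rw [hJ, hT, Finset.mem_sdiff]
    simp only [Finset.mem_univ, true_and, Finset.mem_insert, Finset.mem_singleton, not_or]
  have revJ : ∀ j, j ∈ J → j.rev ∈ J := by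
    intro j hj
    rw [memJ] at hj ⊢
    obtain ⟨h1, h2, h3, h4⟩ := hj
    refine ⟨fun h => h2 (by rw [← h, Fin.rev_rev]), fun h => h1 (Fin.rev_injective h),
      fun h => h4 (by rw [← h, Fin.rev_rev]), fun h => h3 (Fin.rev_injective h)⟩
  have cardJ : J.card = n - T.card := by
    rw [hJ, Finset.card_univ_sdiff, Fintype.card_fin]
  have cardT : T.card ≤ 4 := by
    rw [hT]
    exact Finset.card_le_four
  -- the other missing roots
  have miss : ∀ j ∈ J, P a j → ¬ P b j.rev := by
    intro j hj h1 h2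
    rw [memJ] at hj
    obtain ⟨g1, g2, g3, g4⟩ := hj
    exact hP (hbr a j b (Ne.symm g1) (fun h => g4 (by rw [h, Fin.rev_rev])) hab' h1 (hsymm _ _ h2))
  obtain ⟨f, hf⟩ : ∃ f : Fin n → ℤ, f = fun j => if P a j then wt b + wt j.rev else wt a + wt j := ⟨_, rfl⟩
  obtain ⟨E, hE⟩ : ∃ E : Finset ℤ, E = insert (wt a + wt b) (J.image f) := ⟨_, rfl⟩
  have Emiss : ∀ d ∈ E, ∃ i j, i ≠ j ∧ j ≠ i.rev ∧ ¬ P i j ∧ wt i + wt j = d := by
    intro d hd
    rw [hE, Finset.mem_insert, Finset.mem_image] at hd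
    rcases hd with rfl | ⟨j, hj, rfl⟩
    · exact ⟨a, b, hab, hab', hP, rfl⟩
    · have hj' := hj
      rw [memJ] at hj
      obtain ⟨g1, g2, g3, g4⟩ := hj
      by_cases h1 : P a j
      · refine ⟨b, j.rev, fun h => g4 (by rw [h, Fin.rev_rev]), fun h => g3 (Fin.rev_injective h), miss j hj' h1, ?_⟩
        rw [hf]
        simp only [if_pos h1]
      · refine ⟨a, j, Ne.symm g1, g2, h1, ?_⟩
        rw [hf]
        simp only [if_neg h1]
  have finj : Set.InjOn f J := by
    intro j hj j' hj' h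
    rw [Finset.mem_coe, memJ] at hj hj'
    obtain ⟨g1, g2, g3, g4⟩ := hj
    obtain ⟨k1, k2, k3, k4⟩ := hj'
    rw [hf] at h
    simp only at h
    by_cases h1 : P a j <;> by_cases h2 : P a j'
    · rw [if_pos h1, if_pos h2] at h
      exact Fin.rev_injective (wt_inj (by omega))
    · rw [if_pos h1, if_neg h2] at h
      exfalso
      rcases wt_gen h with ⟨h3, h4⟩ | ⟨h3, h4⟩ | ⟨h3, h4⟩
      · exact g3 (Fin.rev_injective h3)
      · exact hab h3.symm
      · exact k3 h3.symm
    · rw [if_neg h1, if_pos h2] at h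
      exfalso
      rcases wt_gen h with ⟨h3, h4⟩ | ⟨h3, h4⟩ | ⟨h3, h4⟩
      · exact g2 h3
      · exact hab h3
      · exact g3 h4
    · rw [if_neg h1, if_neg h2] at h
      exact wt_inj (by omega)
  have hnot : wt a + wt b ∉ J.image f := by
    intro h
    rw [Finset.mem_image] at h
    obtain ⟨j, hj, h⟩ := h
    rw [memJ] at hj
    obtain ⟨g1, g2, g3, g4⟩ := hj
    rw [hf] at h
    simp only at h
    by_cases h1 : P a j
    · rw [if_pos h1] at h
      have h3 : j.rev = a := wt_inj (by omega)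
      exact g2 (by rw [← h3, Fin.rev_rev])
    · rw [if_neg h1] at h
      exact g3 (wt_inj (by omega))
  have cardE : E.card = J.card + 1 := by
    rw [hE, Finset.card_insert_of_notMem hnot, Finset.card_image_of_injOn finj]
  have hle := hD E Emiss
  -- the middle index
  have ha : a ≠ a.rev := by
    intro h
    have h1 : T.card ≤ 3 := by
      have e : T = {a, b, b.rev} := by
        rw [hT, ← h]
        simp
      rw [e]
      exact Finset.card_le_three
    omega
  have hb : b ≠ b.rev := by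
    intro h
    have h1 : T.card ≤ 3 := by
      have e : T = {a, a.rev, b} := by
        rw [hT, ← h]
        simp
      rw [e]
      exact Finset.card_le_three
    omega
  have ex : ∀ k l, k ≠ l → l ≠ k.rev → ¬ P k l → wt k + wt l = wt a + wt b ∨
      ∃ j ∈ J, (P a j ∧ wt k + wt l = wt b + wt j.rev) ∨ (¬ P a j ∧ wt k + wt l = wt a + wt j) := by
    intro k l h1 h2 h3
    have h4 : wt k + wt l ∈ E := by
      by_contra h4
      have h7 := hD (insert (wt k + wt l) E) (by
        intro d hd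
        rw [Finset.mem_insert] at hd
        rcases hd with rfl | hd
        · exact ⟨k, l, h1, h2, h3, rfl⟩
        · exact Emiss d hd)
      rw [Finset.card_insert_of_notMem h4] at h7
      omega
    rw [hE, Finset.mem_insert, Finset.mem_image] at h4
    rcases h4 with h4 | ⟨j, hj, h4⟩
    · exact Or.inl h4
    · right
      refine ⟨j, hj, ?_⟩
      rw [hf] at h4
      simp only at h4
      by_cases h8 : P a j
      · rw [if_pos h8] at h4
        exact Or.inl ⟨h8, h4.symm⟩
      · rw [if_neg h8] at h4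
        exact Or.inr ⟨h8, h4.symm⟩
  have ex1 : ∀ k l, k ≠ l → l ≠ k.rev → k ≠ a → k ≠ b → l ≠ a → l ≠ b → P k l := by
    intro k l h1 h2 h3 h4 h7 h8
    by_contra hcon
    rcases ex k l h1 h2 hcon with h | ⟨j, -, ⟨-, h⟩ | ⟨-, h⟩⟩
    · rcases wt_gen h with ⟨g1, -⟩ | ⟨g1, -⟩ | ⟨g1, -⟩
      · exact h2 g1
      · exact h3 g1
      · exact h4 g1
    · rcases wt_gen h with ⟨g1, -⟩ | ⟨g1, -⟩ | ⟨-, g1⟩
      · exact h2 g1
      · exact h4 g1
      · exact h8 g1
    · rcases wt_gen h with ⟨g1, -⟩ | ⟨g1, -⟩ | ⟨-, g1⟩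
      · exact h2 g1
      · exact h3 g1
      · exact h7 g1
  have ex2 : P a b.rev := by
    by_contra hcon
    have hr : b.rev ≠ a.rev := fun h => hab (Fin.rev_injective h).symm
    rcases ex a b.rev hba' hr hcon with h | ⟨j, hj, ⟨-, h⟩ | ⟨-, h⟩⟩
    · exact hb (wt_inj (by omega))
    · rw [memJ] at hj
      rcases wt_gen h with ⟨g1, -⟩ | ⟨g1, -⟩ | ⟨g1, g2⟩
      · exact hr g1
      · exact hab g1
      · exact hb g2.symm
    · rw [memJ] at hj
      exact hj.2.2.2 (wt_inj (by omega))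
  have ex3 : P b a.rev := by
    by_contra hcon
    have hr : a.rev ≠ b.rev := fun h => hab (Fin.rev_injective h)
    rcases ex b a.rev (fun h => hab' h) hr hcon with h | ⟨j, hj, ⟨-, h⟩ | ⟨-, h⟩⟩
    · exact ha (wt_inj (by omega))
    · rw [memJ] at hj
      have h1 : j.rev = a.rev := wt_inj (by omega)
      exact hj.1 (Fin.rev_injective h1)
    · rw [memJ] at hj
      rcases wt_gen h with ⟨g1, -⟩ | ⟨g1, -⟩ | ⟨g1, g2⟩
      · exact hr g1
      · exact hab g1.symm
      · exact hj.2.2.1 g1.symm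
  have ex4 : ∀ j ∈ J, P a j ∨ P b j.rev := by
    intro j hj
    by_contra hcon
    push Not at hcon
    obtain ⟨hc1, hc2⟩ := hcon
    have hj' := hj
    rw [memJ] at hj
    obtain ⟨g1, g2, g3, g4⟩ := hj
    rcases ex b j.rev (fun h => g4 (by rw [h, Fin.rev_rev])) (fun h => g3 (Fin.rev_injective h)) hc2 with
      h | ⟨l, hl, ⟨h0, h⟩ | ⟨h0, h⟩⟩
    · have h1 : j.rev = a := wt_inj (by omega)
      exact g2 (by rw [← h1, Fin.rev_rev])
    · have h1 : l.rev = j.rev := wt_inj (by omega)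
      rw [Fin.rev_injective h1] at h0
      exact hc1 h0
    · rw [memJ] at hl
      rcases wt_gen h with ⟨k1, -⟩ | ⟨k1, -⟩ | ⟨k1, k2⟩
      · exact g3 (Fin.rev_injective k1)
      · exact hab k1.symm
      · exact hl.2.2.1 k1.symm
  have prop : ∀ j ∈ J, ¬ P a j → ∀ l ∈ J, l ≠ j → l ≠ j.rev → ¬ P a l := by
    intro j hj hj1 l hl h1 h2 h3
    have hj' := hj
    have hl' := hl
    rw [memJ] at hj hl
    have hr := (memJ _).1 (revJ l hl')
    have h7 : P l.rev j := ex1 l.rev j (fun h => h2 (by rw [← h, Fin.rev_rev])) (fun h => h1 (by rw [h, Fin.rev_rev]))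
      hr.1 hr.2.2.1 hj.1 hj.2.2.1
    exact hj1 (hbr a l j (Ne.symm hl.1) (fun h => h2 (by rw [h, Fin.rev_rev])) hj.2.1 h3 h7)
  have hJ0 : J.Nonempty := by
    rw [← Finset.card_pos]
    omega
  by_cases hA : ∃ j ∈ J, ¬ P a j
  · obtain ⟨j, hj, hj1⟩ := hA
    have hall : ∀ l ∈ J, ¬ P a l := by
      intro l hl
      by_cases h1 : l = j
      · rw [h1]; exact hj1
      by_cases h2 : l = j.rev
      · -- another element
        have h3 : 3 ≤ J.card := by
          have h4 : 2 ≤ J.card := by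
            have h7 : ({j, l} : Finset (Fin n)) ⊆ J := by
              intro x hx
              rw [Finset.mem_insert, Finset.mem_singleton] at hx
              rcases hx with rfl | rfl
              · exact hj
              · exact hl
            have h8 := Finset.card_le_card h7
            rwa [Finset.card_pair (Ne.symm h1)] at h8
          omega
        obtain ⟨m, hm, hmj⟩ : ∃ m ∈ J, m ∉ ({j, j.rev} : Finset (Fin n)) := by
          refine Finset.exists_mem_notMem_of_card_lt_card ?_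
          exact lt_of_le_of_lt Finset.card_le_two h3
        rw [Finset.mem_insert, Finset.mem_singleton, not_or] at hmj
        have h7 := prop j hj hj1 m hm hmj.1 hmj.2
        refine prop m hm h7 l hl (fun h => hmj.2 (by rw [← h, h2])) (fun h => ?_)
        apply hmj.1
        rw [h2] at h
        exact (Fin.rev_injective h).symm
      · exact prop j hj hj1 l hl h1 h2
    obtain ⟨j, hj⟩ := hJ0
    have hj2 := (memJ j).1 hj
    have h1 := ex4 j.rev (revJ j hj)
    rw [Fin.rev_rev] at h1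
    have h2 : P b j := h1.resolve_left (hall _ (revJ j hj))
    refine hall j hj (hbr a b.rev j hba' ?_ hj2.2.1 ex2 ?_)
    · rw [Fin.rev_rev]
      exact hj2.2.2.1
    · rw [Fin.rev_rev]
      exact h2
  · push Not at hA
    obtain ⟨j, hj⟩ := hJ0
    have hj2 := (memJ j).1 hj
    have h1 := miss j.rev (revJ j hj) (hA _ (revJ j hj))
    rw [Fin.rev_rev] at h1
    refine h1 (hbr b a.rev j hab' ?_ hj2.2.2.2 ex3 ?_)
    · rw [Fin.rev_rev]
      exact hj2.1
    · rw [Fin.rev_rev]
      exact hA j hj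

end Pool.Agent.H84GF
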