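import Pool.Agent.H84GF.Lie

/-!
# The orthogonal Lie algebra: if all root vectors are present in a subalgebra then it is everything; missing root vectors
# are linearly independent
-/

set_option autoImplicit false

open Matrix

namespace Pool.Agent.H84GF

variable {n : ℕ} {H : Submodule ℂ (Matrix (Fin n) (Fin n) ℂ)}

theorem step (hHs : H ≤ so0 n) (hall : ∀ i j, Pr H i j) {d : ℤ} (ih : so0 n ⊓ G n d ≤ H) : so0 n ⊓ G n (d + 1) ≤ H := by
  classical
  rintro A ⟨hA1, hA2⟩
  choose z hz1 hz2 using fun p q : Fin n => hall p q.rev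
  set S : Matrix (Fin n) (Fin n) ℂ := ∑ p, ∑ q, (if wt p - wt q = d then A p q else 0) • z p q with hS
  have hSH : S ∈ H := Submodule.sum_mem _ fun p _ => Submodule.sum_mem _ fun q _ => H.smul_mem _ (hz1 p q)
  have h1 : A - (1 / 2 : ℂ) • S ∈ H := by
    apply ih
    refine ⟨Submodule.sub_mem _ hA1 (Submodule.smul_mem _ _ (hHs hSH)), ?_⟩
    intro a b hab
    have h2 : S a b = ∑ p, ∑ q, (if wt p - wt q = d then A p q else 0) * w p q.rev a b := by
      rw [hS, Matrix.sum_apply]
      refine Finset.sum_congr rfl fun p _ => ?_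
      rw [Matrix.sum_apply]
      refine Finset.sum_congr rfl fun q _ => ?_
      rw [Matrix.smul_apply, smul_eq_mul]
      by_cases hpq : wt p - wt q = d
      · rw [if_pos hpq]
        congr 1
        have h3 := hz2 p q
        rw [wt_rev] at h3
        have h4 := h3 a b (by omega)
        rw [Matrix.sub_apply, sub_eq_zero] at h4
        exact h4
      · rw [if_neg hpq, zero_mul, zero_mul]
    have h3 : S a b = (if wt a - wt b = d then A a b else 0) - (if wt b.rev - wt a.rev = d then A b.rev a.rev else 0) := by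
      rw [h2]
      have h4 : ∀ p q : Fin n, (if wt p - wt q = d then A p q else 0) * w p q.rev a b =
          (if p = a ∧ q = b then (if wt p - wt q = d then A p q else 0) else 0) -
          (if p = b.rev ∧ q = a.rev then (if wt p - wt q = d then A p q else 0) else 0) := by
        intro p q
        rw [w_apply, Fin.rev_rev]
        have c1 : (q.rev = a ∧ p.rev = b) ↔ (p = b.rev ∧ q = a.rev) := by
          constructor
          · rintro ⟨rfl, rfl⟩
            rw [Fin.rev_rev, Fin.rev_rev]
            exact ⟨rfl, rfl⟩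
          · rintro ⟨rfl, rfl⟩
            rw [Fin.rev_rev, Fin.rev_rev]
            exact ⟨rfl, rfl⟩
        simp only [c1, mul_sub, mul_ite, mul_one, mul_zero]
      simp only [h4, Finset.sum_sub_distrib]
      have h5 : ∀ (a b : Fin n), ∑ p, ∑ q, (if p = a ∧ q = b then (if wt p - wt q = d then A p q else 0) else 0) =
          if wt a - wt b = d then A a b else 0 := by
        intro a b
        rw [Finset.sum_eq_single a, Finset.sum_eq_single b, if_pos ⟨rfl, rfl⟩]
        · intro q _ hq
          rw [if_neg]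
          rintro ⟨-, h⟩
          exact hq h
        · intro h
          exact absurd (Finset.mem_univ _) h
        · intro p _ hp
          refine Finset.sum_eq_zero fun q _ => ?_
          rw [if_neg]
          rintro ⟨h, -⟩
          exact hp h
        · intro h
          exact absurd (Finset.mem_univ _) h
      rw [h5, h5]
    rw [Matrix.sub_apply, Matrix.smul_apply, smul_eq_mul, h3]
    have h6 : wt b.rev - wt a.rev = wt a - wt b := by rw [wt_rev, wt_rev]; ring
    have h7 : A b.rev a.rev = -A a b := by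
      have := hA1 a b
      rw [this, neg_neg]
    rw [h6, h7]
    by_cases h8 : wt a - wt b = d
    · rw [if_pos h8, if_pos h8]
      ring
    · rw [if_neg h8, if_neg h8, sub_zero, mul_zero, sub_zero]
      exact hA2 a b (by omega)
  have h2 : A = (A - (1 / 2 : ℂ) • S) + (1 / 2 : ℂ) • S := by abel
  rw [h2]
  exact H.add_mem h1 (H.smul_mem _ hSH)

/-- **all root vectors present** -/
theorem full (hHs : H ≤ so0 n) (hall : ∀ i j, Pr H i j) : so0 n ≤ H := by
  obtain ⟨K, hK⟩ : ∃ K : ℕ, ∀ p q : Fin n, |wt p - wt q| < K := by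
    have h1 : ∃ M : ℕ, ∀ x : Fin n × Fin n, (wt x.1 - wt x.2).natAbs ≤ M := by
      obtain ⟨M, hM⟩ := (Set.finite_range fun x : Fin n × Fin n => (wt x.1 - wt x.2).natAbs).bddAbove
      exact ⟨M, fun x => hM ⟨x, rfl⟩⟩
    obtain ⟨M, hM⟩ := h1
    refine ⟨M + 1, fun p q => ?_⟩
    rw [Int.abs_eq_natAbs]
    exact Int.ofNat_lt.2 (Nat.lt_succ_of_le (hM (p, q)))
  have key : ∀ m : ℕ, so0 n ⊓ G n ((m : ℤ) - K) ≤ H := by
    intro m
    induction m with
    | zero =>
      rintro A ⟨-, hA⟩
      have h0 : A = 0 := by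
        ext p q
        have h1 := hA p q (by
          have := (abs_lt.1 (hK p q)).1
          push_cast
          omega)
        rw [h1, Matrix.zero_apply]
      rw [h0]
      exact H.zero_mem
    | succ m ih =>
      have h1 := step hHs hall ih
      have e : ((m : ℤ) - K + 1) = ((m + 1 : ℕ) : ℤ) - K := by push_cast; ring
      rwa [e] at h1
  intro A hA
  refine key (2 * K) ⟨hA, fun p q h => ?_⟩
  exfalso
  have := (abs_lt.1 (hK p q)).2
  push_cast at h
  omega

/-- missing root vectors of different weights are linearly independent -/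
theorem indep {ι : Type} [Fintype ι] (m : ι → Fin n × Fin n) (hm : ∀ k, ¬ Pr H (m k).1 (m k).2)
    (hinj : Function.Injective fun k => wt (m k).1 + wt (m k).2) :
    LinearIndependent ℂ (fun k => H.mkQ (w (m k).1 (m k).2)) := by
  classical
  rw [Fintype.linearIndependent_iff]
  intro c hc
  by_contra hcon
  push Not at hcon
  obtain ⟨k₀, hk₀⟩ := hcon
  obtain ⟨k, hk, hmax⟩ := Finset.exists_max_image (Finset.univ.filter fun k => c k ≠ 0)
    (fun k => wt (m k).1 + wt (m k).2) ⟨k₀, Finset.mem_filter.2 ⟨Finset.mem_univ _, hk₀⟩⟩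
  have hck : c k ≠ 0 := (Finset.mem_filter.1 hk).2
  have h1 : ∑ l, c l • w (m l).1 (m l).2 ∈ H := by
    have h2 : H.mkQ (∑ l, c l • w (m l).1 (m l).2) = 0 := by
      rw [map_sum, ← hc]
      refine Finset.sum_congr rfl fun l _ => ?_
      rw [map_smul]
    rwa [Submodule.mkQ_apply, Submodule.Quotient.mk_eq_zero] at h2
  refine hm k ⟨(c k)⁻¹ • ∑ l, c l • w (m l).1 (m l).2, H.smul_mem _ h1, ?_⟩
  rw [Finset.smul_sum, ← Finset.add_sum_erase _ _ (Finset.mem_univ k), smul_smul, inv_mul_cancel₀ hck, one_smul,
    add_sub_cancel_left]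
  refine Submodule.sum_mem _ fun l hl => ?_
  by_cases hcl : c l = 0
  · rw [hcl, zero_smul, smul_zero]
    exact Submodule.zero_mem _
  refine Submodule.smul_mem _ _ (Submodule.smul_mem _ _ (w_mem' ?_))
  refine lt_of_le_of_ne (hmax l (Finset.mem_filter.2 ⟨Finset.mem_univ _, hcl⟩)) fun h => ?_
  exact (Finset.ne_of_mem_erase hl) (hinj h)

end Pool.Agent.H84GF
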