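import Pool.Agent.H84GF.Wt

/-!
# The orthogonal Lie algebra of the antidiagonal form: root vectors, filtration
-/

set_option autoImplicit false

open Matrix

namespace Pool.Agent.H84GF

variable {n : ℕ}

/-- the root vectors, `e_i ∧ e_j` -/
def w (i j : Fin n) : Matrix (Fin n) (Fin n) ℂ := Matrix.single i j.rev 1 - Matrix.single j i.rev 1

theorem w_apply (i j p q : Fin n) :
    w i j p q = (if i = p ∧ j.rev = q then (1 : ℂ) else 0) - (if j = p ∧ i.rev = q then (1 : ℂ) else 0) := by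
  unfold w
  rw [Matrix.sub_apply, Matrix.single_apply, Matrix.single_apply]

theorem w_swap (i j : Fin n) : w j i = -w i j := by
  unfold w
  rw [neg_sub]

theorem w_self (i : Fin n) : w i i = 0 := by
  unfold w
  rw [sub_self]

theorem sgl (a b c d : Fin n) :
    (Matrix.single a b (1 : ℂ)) * Matrix.single c d 1 = if b = c then Matrix.single a d 1 else 0 := by
  split_ifs with h
  · subst h
    rw [Matrix.single_mul_single_same, mul_one]
  · exact Matrix.single_mul_single_of_ne _ _ _ _ h _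

/-- the value of the form -/
def dl (a b : Fin n) : ℂ := if b = a.rev then 1 else 0

theorem dl_yes (a : Fin n) : dl a a.rev = 1 := if_pos rfl

theorem dl_no {a b : Fin n} (h : b ≠ a.rev) : dl a b = 0 := if_neg h

theorem br_w (i j k l : Fin n) :
    w i j * w k l - w k l * w i j = dl j k • w i l - dl j l • w i k - dl i k • w j l + dl i l • w j k := by
  unfold w dl
  simp only [Matrix.sub_mul, Matrix.mul_sub, sgl]
  have e1 : ∀ a b : Fin n, (a.rev = b) = (b = a.rev) := fun a b => propext eq_comm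
  have e2 : ∀ a b : Fin n, (a = b.rev) ↔ (b = a.rev) := fun a b =>
    ⟨fun h => by rw [h, Fin.rev_rev], fun h => by rw [h, Fin.rev_rev]⟩
  have c1 : (j.rev = k) ↔ (k = j.rev) := eq_comm
  have c2 : (j.rev = l) ↔ (l = j.rev) := eq_comm
  have c3 : (i.rev = k) ↔ (k = i.rev) := eq_comm
  have c4 : (i.rev = l) ↔ (l = i.rev) := eq_comm
  have c5 : (l.rev = i) ↔ (l = i.rev) := by rw [eq_comm, e2]
  have c6 : (l.rev = j) ↔ (l = j.rev) := by rw [eq_comm, e2]
  have c7 : (k.rev = i) ↔ (k = i.rev) := by rw [eq_comm, e2]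
  have c8 : (k.rev = j) ↔ (k = j.rev) := by rw [eq_comm, e2]
  simp only [c1, c2, c3, c4, c5, c6, c7, c8]
  split_ifs <;> module

/-- the filtration by the weights -/
def G (n : ℕ) (d : ℤ) : Submodule ℂ (Matrix (Fin n) (Fin n) ℂ) where
  carrier := {A | ∀ p q, d ≤ wt p - wt q → A p q = 0}
  add_mem' := fun {A B} hA hB p q h => by rw [Matrix.add_apply, hA p q h, hB p q h, add_zero]
  zero_mem' := fun p q _ => rfl
  smul_mem' := fun c A hA p q h => by rw [Matrix.smul_apply, hA p q h, smul_zero]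

theorem mem_G {d : ℤ} {A : Matrix (Fin n) (Fin n) ℂ} : A ∈ G n d ↔ ∀ p q, d ≤ wt p - wt q → A p q = 0 := Iff.rfl

theorem G_mono {d e : ℤ} (h : d ≤ e) : G n d ≤ G n e := fun _ hA p q hpq => hA p q (h.trans hpq)

theorem G_mul {d e : ℤ} {A B : Matrix (Fin n) (Fin n) ℂ} (hA : A ∈ G n d) (hB : B ∈ G n e) :
    A * B ∈ G n (d + e - 1) := by
  intro p q h
  rw [Matrix.mul_apply]
  refine Finset.sum_eq_zero fun r _ => ?_
  by_cases h1 : d ≤ wt p - wt r
  · rw [hA p r h1, zero_mul]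
  · rw [hB r q (by omega), mul_zero]

theorem w_mem (i j : Fin n) : w i j ∈ G n (wt i + wt j + 1) := by
  intro p q h
  rw [w_apply]
  rw [if_neg, if_neg, sub_zero]
  · rintro ⟨rfl, rfl⟩
    rw [wt_rev] at h
    omega
  · rintro ⟨rfl, rfl⟩
    rw [wt_rev] at h
    omega

theorem w_mem' {i j : Fin n} {d : ℤ} (h : wt i + wt j < d) : w i j ∈ G n d := G_mono (by omega) (w_mem i j)

/-- the Lie algebra -/
def so0 (n : ℕ) : Submodule ℂ (Matrix (Fin n) (Fin n) ℂ) where
  carrier := {A | ∀ p q : Fin n, A p q = -A q.rev p.rev}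
  add_mem' := fun {A B} hA hB p q => by rw [Matrix.add_apply, Matrix.add_apply, hA p q, hB p q, neg_add]
  zero_mem' := fun p q => by simp
  smul_mem' := fun c A hA p q => by rw [Matrix.smul_apply, Matrix.smul_apply, hA p q, smul_neg]

theorem mem_so0 {A : Matrix (Fin n) (Fin n) ℂ} : A ∈ so0 n ↔ ∀ p q : Fin n, A p q = -A q.rev p.rev := Iff.rfl

theorem w_so0 (i j : Fin n) : w i j ∈ so0 n := by
  intro p q
  rw [w_apply, w_apply, neg_sub]
  have e1 : ∀ a b : Fin n, (a = b.rev) ↔ (a.rev = b) := fun a b =>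
    ⟨fun h => by rw [h, Fin.rev_rev], fun h => by rw [← h, Fin.rev_rev]⟩
  simp only [e1, Fin.rev_rev]
  have c1 : (i = p ∧ j.rev = q) ↔ (j.rev = q ∧ i = p) := and_comm
  have c2 : (j = p ∧ i.rev = q) ↔ (i.rev = q ∧ j = p) := and_comm
  simp only [c1, c2]

variable {H : Submodule ℂ (Matrix (Fin n) (Fin n) ℂ)}

/-- the root is present in `H` -/
def Pr (H : Submodule ℂ (Matrix (Fin n) (Fin n) ℂ)) (i j : Fin n) : Prop := ∃ z ∈ H, z - w i j ∈ G n (wt i + wt j)

theorem Pr_symm {i j : Fin n} (h : Pr H i j) : Pr H j i := by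
  obtain ⟨z, hz, h1⟩ := h
  refine ⟨-z, H.neg_mem hz, ?_⟩
  have e : -z - w j i = -(z - w i j) := by rw [w_swap]; abel
  rw [e, add_comm (wt j)]
  exact Submodule.neg_mem _ h1

theorem Pr_self (i : Fin n) : Pr H i i := by
  refine ⟨0, H.zero_mem, ?_⟩
  rw [w_self, sub_zero]
  exact Submodule.zero_mem _

/-- the leading term of the bracket -/
theorem br_lead {i j k l : Fin n} {z z' : Matrix (Fin n) (Fin n) ℂ} (h : z - w i j ∈ G n (wt i + wt j))
    (h' : z' - w k l ∈ G n (wt k + wt l)) :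
    (z * z' - z' * z) - (w i j * w k l - w k l * w i j) ∈ G n (wt i + wt j + (wt k + wt l)) := by
  obtain ⟨f, hf⟩ : ∃ f, f = z - w i j := ⟨_, rfl⟩
  obtain ⟨f', hf'⟩ : ∃ f', f' = z' - w k l := ⟨_, rfl⟩
  rw [← hf] at h
  rw [← hf'] at h'
  have ez : z = w i j + f := by rw [hf]; abel
  have ez' : z' = w k l + f' := by rw [hf']; abel
  have e : (z * z' - z' * z) - (w i j * w k l - w k l * w i j) =
      w i j * f' + f * w k l + f * f' - (w k l * f + f' * w i j + f' * f) := by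
    rw [ez, ez']
    noncomm_ring
  rw [e]
  have a1 := G_mul (w_mem i j) h'
  have a2 := G_mul h (w_mem k l)
  have a3 := G_mul h h'
  have a4 := G_mul (w_mem k l) h
  have a5 := G_mul h' (w_mem i j)
  have a6 := G_mul h' h
  refine Submodule.sub_mem _ (Submodule.add_mem _ (Submodule.add_mem _ ?_ ?_) ?_)
    (Submodule.add_mem _ (Submodule.add_mem _ ?_ ?_) ?_)
  · exact G_mono (by omega) a1
  · exact G_mono (by omega) a2
  · exact G_mono (by omega) a3
  · exact G_mono (by omega) a4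
  · exact G_mono (by omega) a5
  · exact G_mono (by omega) a6

section bracket
variable (hH : ∀ X ∈ H, ∀ Y ∈ H, X * Y - Y * X ∈ H)
include hH

/-- the sum of two roots -/
theorem Pr_br {i j k : Fin n} (h1 : i ≠ j) (h2 : k ≠ j.rev) (h3 : k ≠ i.rev) (p1 : Pr H i j) (p2 : Pr H j.rev k) :
    Pr H i k := by
  obtain ⟨z, hz, a1⟩ := p1
  obtain ⟨z', hz', a2⟩ := p2
  refine ⟨z * z' - z' * z, hH z hz z' hz', ?_⟩
  have h4 := br_lead a1 a2
  have h5 : j.rev ≠ i.rev := fun h => h1 (Fin.rev_injective h).symm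
  have h6 : k ≠ j.rev := h2
  rw [br_w, dl_yes, dl_no h6, dl_no h5, dl_no h3, one_smul, zero_smul, zero_smul, zero_smul, sub_zero, sub_zero,
    add_zero, wt_rev] at h4
  have e : wt i + wt j + (-wt j + wt k) = wt i + wt k := by ring
  rwa [e] at h4

/-- the Cartan elements -/
theorem Pr_cartan {i j : Fin n} (h1 : i ≠ j) (h2 : j ≠ i.rev) (p1 : Pr H i j) (p2 : Pr H j.rev i.rev)
    (p3 : Pr H i j.rev) (p4 : Pr H j i.rev) : Pr H i i.rev := by
  obtain ⟨z1, hz1, a1⟩ := p1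
  obtain ⟨z2, hz2, a2⟩ := p2
  obtain ⟨z3, hz3, a3⟩ := p3
  obtain ⟨z4, hz4, a4⟩ := p4
  have h4 := br_lead a1 a2
  have h5 := br_lead a3 a4
  have n1 : j.rev ≠ i.rev := fun h => h1 (Fin.rev_injective h).symm
  have n2 : i.rev ≠ j.rev := fun h => h1 (Fin.rev_injective h)
  have n3 : i.rev ≠ j := fun h => h2 h.symm
  rw [br_w, dl_yes, dl_yes, dl_no n2, dl_no n1] at h4
  have n4 : dl j.rev i.rev = 0 := by
    apply dl_no
    rw [Fin.rev_rev]
    exact n3
  have n5 : dl i j = 0 := dl_no h2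
  have n6 : dl j.rev j = (1 : ℂ) := by
    have := dl_yes j.rev
    rwa [Fin.rev_rev] at this
  rw [br_w, n4, n5, n6, dl_yes] at h5
  simp only [wt_rev] at h4 h5 ⊢
  refine ⟨(1 / 2 : ℂ) • ((z1 * z2 - z2 * z1) + (z3 * z4 - z4 * z3)), H.smul_mem _ (H.add_mem (hH _ hz1 _ hz2)
    (hH _ hz3 _ hz4)), ?_⟩
  have e0 : wt i + wt j + (-wt j + -wt i) = wt i + -wt i := by ring
  have e0' : wt i + -wt j + (wt j + -wt i) = wt i + -wt i := by ring
  rw [e0] at h4
  rw [e0'] at h5
  have h6 := Submodule.smul_mem _ (1 / 2 : ℂ) (Submodule.add_mem _ h4 h5)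
  have e7 : (1 / 2 : ℂ) • ((z1 * z2 - z2 * z1) + (z3 * z4 - z4 * z3)) - w i i.rev = (1 / 2 : ℂ) •
      (z1 * z2 - z2 * z1 - ((1 : ℂ) • w i i.rev - (0 : ℂ) • w i j.rev - (0 : ℂ) • w j i.rev + (1 : ℂ) • w j j.rev) +
        (z3 * z4 - z4 * z3 - ((1 : ℂ) • w i i.rev - (0 : ℂ) • w i j - (0 : ℂ) • w j.rev i.rev +
          (1 : ℂ) • w j.rev j))) := by
    rw [w_swap j j.rev]
    module
  rw [e7, wt_rev]
  exact h6

end bracket

end Pool.Agent.H84GF
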