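import Pool.Agent.H84GF.Nil

/-!
# Subalgebras of small codimension of the orthogonal Lie algebras
-/

set_option autoImplicit false
set_option linter.unusedSectionVars false

open Matrix Module

namespace Pool.Agent.H84GF

open Pool.Agent.Y123.GN Pool.Agent.T44.GF

variable {n : ℕ}

theorem so0_br {X Y : Matrix (Fin n) (Fin n) ℂ} (hX : X ∈ so0 n) (hY : Y ∈ so0 n) : X * Y - Y * X ∈ so0 n := by
  have key : ∀ {X Y : Matrix (Fin n) (Fin n) ℂ}, X ∈ so0 n → Y ∈ so0 n → ∀ p q : Fin n, (X * Y) p q = (Y * X) q.rev p.rev := by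
    intro X Y hX hY p q
    rw [Matrix.mul_apply, Matrix.mul_apply]
    refine Fintype.sum_equiv Fin.revPerm _ _ fun r => ?_
    rw [Fin.revPerm_apply, hX p r, hY r q]
    ring
  intro p q
  have e1 := key hX hY p q
  have e2 := key hY hX p q
  rw [Matrix.sub_apply, Matrix.sub_apply]
  linear_combination e1 - e2

/-- the span of the commutators of root vectors -/
def Cm (n : ℕ) : Submodule ℂ (Matrix (Fin n) (Fin n) ℂ) :=
  Submodule.span ℂ {C | ∃ i j k l : Fin n, (i ≠ j ∧ j ≠ i.rev) ∧ (k ≠ l ∧ l ≠ k.rev) ∧ C = w i j * w k l - w k l * w i j}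

theorem so0_le_Cm (h5 : 5 ≤ n) : so0 n ≤ Cm n := by
  classical
  have hroot : ∀ i j : Fin n, i ≠ j → j ≠ i.rev → w i j ∈ Cm n := by
    intro i j hij hij'
    obtain ⟨l, -, hl⟩ : ∃ l ∈ (Finset.univ : Finset (Fin n)), l ∉ ({i, i.rev, j, j.rev} : Finset (Fin n)) := by
      refine Finset.exists_mem_notMem_of_card_lt_card ?_
      refine lt_of_le_of_lt Finset.card_le_four ?_
      rw [Finset.card_univ, Fintype.card_fin]
      omega
    simp only [Finset.mem_insert, Finset.mem_singleton, not_or] at hl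
    obtain ⟨l1, l2, l3, l4⟩ := hl
    have e1 : l.rev ≠ j := fun h => l4 (by rw [← h, Fin.rev_rev])
    refine Submodule.subset_span ⟨i, l, l.rev, j, ⟨Ne.symm l1, l2⟩, ⟨e1, ?_⟩, ?_⟩
    · rw [Fin.rev_rev]
      exact Ne.symm l3
    · have e2 : l.rev ≠ i.rev := fun h => l1 (Fin.rev_injective h)
      rw [br_w, dl_yes, dl_no (Ne.symm e1), dl_no e2, dl_no hij', one_smul, zero_smul, zero_smul, zero_smul, sub_zero,
        sub_zero, add_zero]
  refine full ?_ fun i j => ?_
  · refine Submodule.span_le.2 ?_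
    rintro C ⟨i, j, k, l, -, -, rfl⟩
    exact so0_br (w_so0 _ _) (w_so0 _ _)
  have hz : ∀ z ∈ Cm n, z = w i j → Pr (Cm n) i j := by
    intro z hz h
    refine ⟨z, hz, ?_⟩
    rw [h, sub_self]
    exact Submodule.zero_mem _
  by_cases hij : i = j
  · rw [hij]
    exact Pr_self j
  by_cases hij' : j = i.rev
  · subst hij'
    obtain ⟨l, -, hl⟩ : ∃ l ∈ (Finset.univ : Finset (Fin n)), l ∉ ({i, i.rev} : Finset (Fin n)) := by
      refine Finset.exists_mem_notMem_of_card_lt_card ?_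
      refine lt_of_le_of_lt Finset.card_le_two ?_
      rw [Finset.card_univ, Fintype.card_fin]
      omega
    rw [Finset.mem_insert, Finset.mem_singleton, not_or] at hl
    have e1 : l.rev ≠ i := fun h => hl.2 (by rw [← h, Fin.rev_rev])
    have e2 : l.rev ≠ i.rev := fun h => hl.1 (Fin.rev_injective h)
    have m1 : w i l * w l.rev i.rev - w l.rev i.rev * w i l ∈ Cm n := by
      refine Submodule.subset_span ⟨i, l, l.rev, i.rev, ⟨Ne.symm hl.1, hl.2⟩, ⟨e2, ?_⟩, rfl⟩
      rw [Fin.rev_rev]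
      exact fun h => hl.2 h.symm
    have m2 : w i l.rev * w l i.rev - w l i.rev * w i l.rev ∈ Cm n :=
      Submodule.subset_span ⟨i, l.rev, l, i.rev, ⟨Ne.symm e1, e2⟩,
        ⟨hl.2, fun h => hl.1 (Fin.rev_injective h).symm⟩, rfl⟩
    refine hz _ (Submodule.smul_mem _ (1 / 2 : ℂ) (Submodule.add_mem _ m1 m2)) ?_
    have n4 : dl l.rev i.rev = (0 : ℂ) := by
      apply dl_no
      rw [Fin.rev_rev]
      exact fun h => hl.2 h.symm
    have n5 : dl i l = 0 := dl_no hl.2
    have n6 : dl l.rev l = (1 : ℂ) := by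
      have := dl_yes l.rev
      rwa [Fin.rev_rev] at this
    have n7 : dl l i.rev = 0 := dl_no (Ne.symm e2)
    have n8 : dl i l.rev = 0 := dl_no e2
    rw [br_w, br_w, dl_yes, dl_yes, n4, n5, n6, n7, n8, w_swap l l.rev]
    module
  · exact hz _ (hroot i j hij hij') rfl

section transport
variable {J P : Matrix (Fin n) (Fin n) ℂ}

theorem ro_col (hP : Pᵀ * J = J0 n * P⁻¹) (i j : Fin n) :
    ro J (P *ᵥ Pi.single i 1) (P *ᵥ Pi.single j 1) = P * Matrix.single i j.rev 1 * P⁻¹ := by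
  have h1 : (P *ᵥ Pi.single j 1) ᵥ* J = (Pi.single j.rev (1 : ℂ)) ᵥ* P⁻¹ := by
    have h2 : P *ᵥ Pi.single j 1 = Pi.single j 1 ᵥ* Pᵀ := (vecMul_transpose _ _).symm
    rw [h2, vecMul_vecMul, hP, ← vecMul_vecMul]
    congr 1
    rw [single_one_vecMul]
    funext k
    rw [Matrix.row_apply, J0_apply, Pi.single_apply]
  unfold ro
  rw [h1, Matrix.single_eq_single_vecMulVec_single, mul_vecMulVec, vecMulVec_mul]

theorem w_col (hP : Pᵀ * J = J0 n * P⁻¹) (i j : Fin n) :
    P * w i j * P⁻¹ = ro J (P *ᵥ Pi.single i 1) (P *ᵥ Pi.single j 1) - ro J (P *ᵥ Pi.single j 1) (P *ᵥ Pi.single i 1) := by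
  rw [ro_col hP, ro_col hP]
  unfold w
  rw [Matrix.mul_sub, Matrix.sub_mul]

theorem bf_col (hP : Pᵀ * J * P = J0 n) (i j : Fin n) : bf J (P *ᵥ Pi.single i 1) (P *ᵥ Pi.single j 1) = dl i j := by
  unfold bf
  rw [mulVec_mulVec, ← vecMul_transpose, ← dotProduct_mulVec, mulVec_mulVec, ← Matrix.mul_assoc, hP,
    single_one_dotProduct, mulVec_single_one]
  rfl

end transport

theorem main : S_CLSO := by
  intro n s B hB hBu h5 h6 hs
  have hdet : B.det ≠ 0 := ((Matrix.isUnit_iff_isUnit_det _).1 hBu).ne_zero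
  have hJ : (B⁻¹)ᵀ = B⁻¹ := inv_symm' hB
  have hJd : (B⁻¹).det ≠ 0 := inv_det hdet
  obtain ⟨P, hP⟩ := exists_P hJ hJd
  have hPd : P.det ≠ 0 := by
    intro h
    have h1 := congrArg Matrix.det hP
    rw [det_mul, h, mul_zero] at h1
    exact J0_det h1.symm
  have hPu : IsUnit P.det := Ne.isUnit hPd
  have hP' : Pᵀ * B⁻¹ = J0 n * P⁻¹ := by
    rw [← hP, Matrix.mul_assoc, mul_nonsing_inv _ hPu, Matrix.mul_one]
  have hPP : P * P⁻¹ = 1 := mul_nonsing_inv _ hPu
  have hPP' : P⁻¹ * P = 1 := nonsing_inv_mul _ hPu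
  -- the transport
  obtain ⟨φ, hφ⟩ : ∃ φ : Matrix (Fin n) (Fin n) ℂ →ₗ[ℂ] Matrix (Fin n) (Fin n) ℂ, ∀ X, φ X = P * X * P⁻¹ :=
    ⟨{ toFun := fun X => P * X * P⁻¹
       map_add' := fun X Y => by rw [Matrix.mul_add, Matrix.add_mul]
       map_smul' := fun c X => by rw [Matrix.mul_smul, Matrix.smul_mul]; rfl }, fun X => rfl⟩
  have hφm : ∀ X Y, φ (X * Y) = φ X * φ Y := by
    intro X Y
    rw [hφ, hφ, hφ]
    calc P * (X * Y) * P⁻¹ = P * X * (P⁻¹ * P) * Y * P⁻¹ := by rw [hPP']; simp only [Matrix.mul_assoc, Matrix.one_mul]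
      _ = P * X * P⁻¹ * (P * Y * P⁻¹) := by simp only [Matrix.mul_assoc]
  have hφb : ∀ X Y, φ (X * Y - Y * X) = φ X * φ Y - φ Y * φ X := by
    intro X Y
    rw [map_sub, hφm, hφm]
  -- the root vectors
  have hw : ∀ i j : Fin n, i ≠ j → j ≠ i.rev → φ (w i j) ∈ Nil (GB B) := by
    have h1 : ∀ i j : Fin n, i ≠ j → j ≠ i.rev → i ≠ i.rev → φ (w i j) ∈ Nil (GB B) := by
      intro i j hij hij' hi
      rw [hφ, w_col hP']
      refine sg_mem hB hdet ?_ ?_
      · rw [bf_col hP]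
        exact dl_no hi
      · rw [bf_col hP]
        exact dl_no hij'
    intro i j hij hij'
    by_cases hi : i = i.rev
    · have hj : j ≠ j.rev := by
        intro h
        apply hij
        apply Fin.ext
        have a1 := congrArg Fin.val hi
        have a2 := congrArg Fin.val h
        rw [Fin.val_rev] at a1 a2
        omega
      have h2 := h1 j i (Ne.symm hij) (fun h => hij' (by rw [h, Fin.rev_rev])) hj
      have h3 : w i j = -w j i := w_swap j i
      rw [h3, map_neg]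
      exact Nil_neg h2
    · exact h1 i j hij hij' hi
  -- elements of the Lie algebra
  have hso : ∀ N ∈ Nil (GB B), ∃ A ∈ so0 n, φ A = N := by
    intro N hN
    have h1 := nil_deriv hN
    refine ⟨P⁻¹ * N * P, ?_, ?_⟩
    · apply mem_so0'
      have h2 : Nᵀ * B⁻¹ = -(B⁻¹ * N) := by
        have h3 : B * Nᵀ = -(N * B) := by
          rw [eq_neg_iff_add_eq_zero, add_comm]
          exact h1
        have hBB : B⁻¹ * B = 1 := nonsing_inv_mul _ (Ne.isUnit hdet)
        have hBB' : B * B⁻¹ = 1 := mul_nonsing_inv _ (Ne.isUnit hdet)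
        calc Nᵀ * B⁻¹ = (B⁻¹ * B) * Nᵀ * B⁻¹ := by rw [hBB, Matrix.one_mul]
          _ = B⁻¹ * (B * Nᵀ) * B⁻¹ := by simp only [Matrix.mul_assoc]
          _ = -(B⁻¹ * N * (B * B⁻¹)) := by
              rw [h3, Matrix.mul_neg, Matrix.neg_mul]
              simp only [Matrix.mul_assoc]
          _ = -(B⁻¹ * N) := by rw [hBB', Matrix.mul_one]
      have h4 : J0 n * (P⁻¹ * N * P) = Pᵀ * (B⁻¹ * N) * P := by
        calc J0 n * (P⁻¹ * N * P) = (J0 n * P⁻¹) * N * P := by simp only [Matrix.mul_assoc]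
          _ = Pᵀ * (B⁻¹ * N) * P := by rw [← hP']; simp only [Matrix.mul_assoc]
      have h5' : (P⁻¹ * N * P)ᵀ * J0 n = Pᵀ * (Nᵀ * B⁻¹) * P := by
        have h6' : (P⁻¹ * N * P)ᵀ * J0 n = (J0 n * (P⁻¹ * N * P))ᵀ := by rw [transpose_mul (J0 n), J0_symm]
        rw [h6', h4, transpose_mul, transpose_mul, transpose_mul, hJ, transpose_transpose]
        simp only [Matrix.mul_assoc]
      rw [h4, h5', h2, Matrix.mul_neg, Matrix.neg_mul]
      exact neg_add_cancel _
    · rw [hφ]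
      calc P * (P⁻¹ * N * P) * P⁻¹ = (P * P⁻¹) * N * (P * P⁻¹) := by simp only [Matrix.mul_assoc]
        _ = N := by rw [hPP, Matrix.one_mul, Matrix.mul_one]
  refine ⟨?_, ?_⟩
  · -- perfect
    intro N hN
    obtain ⟨A, hA, rfl⟩ := hso N hN
    have h1 : (Cm n).map φ ≤ Submodule.span ℂ
        {C : Matrix (Fin n) (Fin n) ℂ | ∃ A ∈ Nil (GB B), ∃ D ∈ Nil (GB B), C = A * D - D * A} := by
      unfold Cm
      rw [Submodule.map_span]
      refine Submodule.span_mono ?_
      rintro _ ⟨C, ⟨i, j, k, l, ⟨a1, a2⟩, ⟨a3, a4⟩, rfl⟩, rfl⟩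
      exact ⟨φ (w i j), hw i j a1 a2, φ (w k l), hw k l a3 a4, hφb _ _⟩
    exact h1 (Submodule.mem_map_of_mem (so0_le_Cm h5 hA))
  · -- subalgebras
    intro H hH hv N hN
    obtain ⟨A, hA, rfl⟩ := hso N hN
    have h1 : so0 n ≤ H.comap φ ⊓ so0 n := by
      refine noSub0 hs h5 h6 (H.comap φ ⊓ so0 n) inf_le_right ?_ ?_
      · intro X hX Y hY
        refine ⟨?_, so0_br hX.2 hY.2⟩
        show φ (X * Y - Y * X) ∈ H
        rw [hφb]
        exact hH _ hX.1 _ hY.1
      · intro m hm hLI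
        refine hv (fun k => φ (w (m k).1 (m k).2)) (fun k => hw _ _ (hm k).1 (hm k).2) ?_
        rw [Fintype.linearIndependent_iff] at hLI ⊢
        intro c hc
        apply hLI c
        have h2 : ∑ k, c k • w (m k).1 (m k).2 ∈ H.comap φ ⊓ so0 n := by
          refine ⟨?_, Submodule.sum_mem _ fun k _ => Submodule.smul_mem _ _ (w_so0 _ _)⟩
          show φ (∑ k, c k • w (m k).1 (m k).2) ∈ H
          have h3 : H.mkQ (φ (∑ k, c k • w (m k).1 (m k).2)) = 0 := by
            rw [map_sum, map_sum, ← hc]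
            refine Finset.sum_congr rfl fun k _ => ?_
            rw [map_smul, map_smul]
          rwa [Submodule.mkQ_apply, Submodule.Quotient.mk_eq_zero] at h3
        have h4 : (H.comap φ ⊓ so0 n).mkQ (∑ k, c k • w (m k).1 (m k).2) = 0 := by
          rwa [Submodule.mkQ_apply, Submodule.Quotient.mk_eq_zero]
        rw [map_sum] at h4
        rw [← h4]
        refine Finset.sum_congr rfl fun k _ => ?_
        rw [map_smul]
    exact (h1 hA).1

end Pool.Agent.H84GF
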