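import Pool.Agent.H84GF.Full
import Pool.Agent.H84GF.Comb

/-!
# Subalgebras of small codimension of the orthogonal Lie algebra of the antidiagonal form; perfectness
-/

set_option autoImplicit false

open Matrix

namespace Pool.Agent.H84GF

variable {n : ℕ}

theorem noSub0 {s : ℕ} (hs : s + 3 ≤ n) (h5 : 5 ≤ n) (h6 : n ≠ 6) (H : Submodule ℂ (Matrix (Fin n) (Fin n) ℂ))
    (hHs : H ≤ so0 n) (hH : ∀ X ∈ H, ∀ Y ∈ H, X * Y - Y * X ∈ H)
    (hv : ∀ m : Fin (s + 1) → Fin n × Fin n, (∀ k, (m k).1 ≠ (m k).2 ∧ (m k).2 ≠ (m k).1.rev) →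
      ¬ LinearIndependent ℂ (fun k => H.mkQ (w (m k).1 (m k).2))) : so0 n ≤ H := by
  classical
  have hroot : ∀ i j : Fin n, i ≠ j → j ≠ i.rev → Pr H i j := by
    refine comb (Pr H) (fun i j h => Pr_symm h) (fun i j k h1 h2 h3 p1 p2 => Pr_br hH h1 h2 h3 p1 p2) hs h5 h6 ?_
    intro D hD
    by_contra hcon
    push Not at hcon
    obtain ⟨D', hD', hcard⟩ := Finset.exists_subset_card_eq (Nat.succ_le_of_lt hcon)
    have e := (Finset.equivFinOfCardEq hcard).symm
    choose i j h1 h2 h3 h4 using hD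
    refine hv (fun k => (i (e k).1 (hD' (e k).2), j (e k).1 (hD' (e k).2))) (fun k => ⟨h1 _ _, h2 _ _⟩) ?_
    refine indep _ (fun k => h3 _ _) ?_
    intro k k' h
    simp only [h4] at h
    exact e.injective (Subtype.ext h)
  refine full hHs fun i j => ?_
  by_cases hij : i = j
  · rw [hij]
    exact Pr_self j
  by_cases hij' : j = i.rev
  · rw [hij']
    obtain ⟨l, -, hl⟩ : ∃ l ∈ (Finset.univ : Finset (Fin n)), l ∉ ({i, i.rev} : Finset (Fin n)) := by
      refine Finset.exists_mem_notMem_of_card_lt_card ?_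
      refine lt_of_le_of_lt Finset.card_le_two ?_
      rw [Finset.card_univ, Fintype.card_fin]
      omega
    rw [Finset.mem_insert, Finset.mem_singleton, not_or] at hl
    have e1 : l.rev ≠ i := fun h => hl.2 (by rw [← h, Fin.rev_rev])
    have e2 : l.rev ≠ i.rev := fun h => hl.1 (Fin.rev_injective h)
    refine Pr_cartan hH (Ne.symm hl.1) hl.2 (hroot i l (Ne.symm hl.1) hl.2) (hroot l.rev i.rev e2 ?_)
      (hroot i l.rev (Ne.symm e1) e2) (hroot l i.rev hl.2 (fun h => hl.1 (Fin.rev_injective h).symm))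
    rw [Fin.rev_rev]
    exact fun h => hl.2 h.symm
  · exact hroot i j hij hij'

end Pool.Agent.H84GF
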