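import Pool.Agent.T44.GF.Stm4
import Pool.Agent.H84GF.Std

/-!
# The nilpotent matrices of the special orthogonal group; transport to the antidiagonal form
-/

set_option autoImplicit false
set_option linter.unusedSectionVars false

open Matrix Module

namespace Pool.Agent.H84GF

open Pool.Agent.Y123.GN Pool.Agent.T44.GF

variable {n : ℕ}

/-- the derivative of the exponentials -/
theorem nil_deriv {B N : Matrix (Fin n) (Fin n) ℂ} (hN : N ∈ Nil (GB B)) : N * B + B * Nᵀ = 0 := by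
  obtain ⟨E, h1, h2⟩ := exists_expP hN.1
  have hB : ∀ t : ℂ, ev t (E * B.map Polynomial.C * Eᵀ) = B := by
    intro t
    obtain ⟨u, hu, hu'⟩ := hN.2 t
    have h3 := hu.2
    rw [hu'] at h3
    have h4 : ev t Eᵀ = (ev t E)ᵀ := rfl
    rw [ev_mul, ev_mul, ev_C, h4, h1]
    exact h3
  have h5 : E * B.map Polynomial.C * Eᵀ = B.map Polynomial.C := by
    ext1 a b
    apply Polynomial.funext
    intro t
    have h6 := congrFun (congrFun (hB t) a) b
    have h7 : ev t (E * B.map Polynomial.C * Eᵀ) a b = Polynomial.eval t ((E * B.map Polynomial.C * Eᵀ) a b) := rfl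
    rw [← h7, h6, Matrix.map_apply, Polynomial.eval_C]
  have h6 : dr (E * B.map Polynomial.C * Eᵀ) = 0 := by rw [h5, dr_C]
  have h7 : dr Eᵀ = (dr E)ᵀ := rfl
  rw [dr_mul, dr_mul, dr_C, Matrix.mul_zero, add_zero, h7, h2, transpose_mul] at h6
  have h8 := congrArg (ev 0) h6
  have h9 : ev 0 Eᵀ = (ev 0 E)ᵀ := rfl
  have h10 : ev 0 ((N.map Polynomial.C)ᵀ : Matrix (Fin n) (Fin n) (Polynomial ℂ)) = Nᵀ := by
    ext a b
    show Polynomial.eval 0 (Polynomial.C (N b a)) = _
    rw [Polynomial.eval_C, transpose_apply]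
  have h11 : ev 0 (0 : Matrix (Fin n) (Fin n) (Polynomial ℂ)) = 0 := by
    ext a b
    show Polynomial.eval 0 (0 : Polynomial ℂ) = _
    rw [Polynomial.eval_zero, Matrix.zero_apply]
  rw [ev_add] at h8
  simp only [ev_mul, ev_C, h9, h1, h10, h11] at h8
  have h12 : IsNilpotent.exp ((0 : ℂ) • N) = 1 := by
    rw [zero_smul]
    exact IsNilpotent.exp_zero
  rw [h12, transpose_one, Matrix.mul_one, Matrix.mul_one, Matrix.one_mul, Matrix.one_mul] at h8
  exact h8

section siegel
variable {J : Matrix (Fin n) (Fin n) ℂ} {x a : Fin n → ℂ} {c : ℂ} (hJ : Jᵀ = J) (hx : bf J x x = 0)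
  (hxa : bf J x a = 0) (haa : bf J a a = c)
include hJ hx hxa haa

theorem sg_sq : (ro J x a - ro J a x) * (ro J x a - ro J a x) = -c • ro J x x := by
  have hax : bf J a x = 0 := by rw [sym_bf hJ, hxa]
  simp only [Matrix.sub_mul, Matrix.mul_sub, ro_mul, hx, hxa, haa, hax]
  module

theorem sg_cube : (ro J x a - ro J a x) * (ro J x a - ro J a x) * (ro J x a - ro J a x) = 0 := by
  rw [sg_sq hJ hx hxa haa]
  simp only [Matrix.smul_mul, Matrix.mul_sub, ro_mul, hx, hxa]
  module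

theorem sg_nil : IsNilpotent (ro J x a - ro J a x) :=
  ⟨3, by rw [pow_succ, pow_two, sg_cube hJ hx hxa haa]⟩

theorem sg_exp (t : ℂ) : IsNilpotent.exp (t • (ro J x a - ro J a x)) =
    1 + t • (ro J x a - ro J a x) - (t * t * c / 2) • ro J x x := by
  have h1 : (t • (ro J x a - ro J a x)) ^ 3 = 0 := by
    rw [pow_succ, pow_two, smul_mul_smul_comm, smul_mul_smul_comm, sg_cube hJ hx hxa haa, smul_zero]
  have h2 : (t • (ro J x a - ro J a x)) ^ 2 = -(t * t * c) • ro J x x := by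
    rw [pow_two, smul_mul_smul_comm, sg_sq hJ hx hxa haa, smul_smul]
    congr 1
    ring
  rw [IsNilpotent.exp_eq_sum h1, Finset.sum_range_succ, Finset.sum_range_succ, Finset.sum_range_succ,
    Finset.sum_range_zero, h2]
  have h3 : ((Nat.factorial 2 : ℚ)⁻¹) • (-(t * t * c) • ro J x x) = ((1 / 2 : ℂ)) • (-(t * t * c) • ro J x x) := by
    have h4 : ((1 / 2 : ℂ)) = (((Nat.factorial 2 : ℚ)⁻¹ : ℚ) : ℂ) := by
      norm_num [Nat.factorial]
    rw [h4]
    exact (Rat.cast_smul_eq_qsmul ℂ _ _).symm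
  rw [h3, pow_zero, pow_one]
  simp only [Nat.factorial_zero, Nat.factorial_one, Nat.cast_one, inv_one, one_smul, zero_add]
  module

theorem sg_iso (t : ℂ) : (IsNilpotent.exp (t • (ro J x a - ro J a x)))ᵀ * J * IsNilpotent.exp (t • (ro J x a - ro J a x)) =
    J := by
  have hJ' : Jᵀ = (1 : ℂ) • J := by rw [hJ, one_smul]
  have hax : bf J a x = 0 := by rw [sym_bf hJ, hxa]
  rw [sg_exp hJ hx hxa haa]
  refine iso_of_adj (g' := 1 - t • (ro J x a - ro J a x) - (t * t * c / 2) • ro J x x) ?_ ?_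
  · rw [transpose_sub, transpose_add, transpose_one, transpose_smul, transpose_smul, transpose_sub]
    simp only [Matrix.sub_mul, Matrix.add_mul, Matrix.one_mul, Matrix.smul_mul, ro_adj (by norm_num : (1 : ℂ) * 1 = 1) hJ',
      Matrix.mul_sub, Matrix.mul_one, Matrix.mul_smul, one_smul]
    module
  · simp only [Matrix.sub_mul, Matrix.mul_sub, Matrix.mul_add, Matrix.one_mul, Matrix.mul_one, Matrix.smul_mul,
      Matrix.mul_smul, ro_mul, hx, hxa, haa, hax]
    module

end siegel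

/-- root vectors are in the set of nilpotent matrices -/
theorem sg_mem {B : Matrix (Fin n) (Fin n) ℂ} (hB : Bᵀ = B) (hdet : B.det ≠ 0) {x a : Fin n → ℂ} (hx : bf B⁻¹ x x = 0)
    (hxa : bf B⁻¹ x a = 0) : ro B⁻¹ x a - ro B⁻¹ a x ∈ Nil (GB B) := by
  have hJ : (B⁻¹)ᵀ = B⁻¹ := inv_symm' hB
  have h1 := sg_nil hJ hx hxa rfl
  refine ⟨h1, fun t => ?_⟩
  exact GB_of_iso hdet (sg_iso hJ hx hxa rfl t) (det_exp h1 t)

/-- the antidiagonal form -/
def J0 (n : ℕ) : Matrix (Fin n) (Fin n) ℂ := Matrix.of fun i j => dl i j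

theorem J0_apply (i j : Fin n) : J0 n i j = if j = i.rev then 1 else 0 := rfl

theorem J0_symm : (J0 n)ᵀ = J0 n := by
  ext i j
  rw [transpose_apply, J0_apply, J0_apply]
  have h : (i = j.rev) ↔ (j = i.rev) := ⟨fun h => by rw [h, Fin.rev_rev], fun h => by rw [h, Fin.rev_rev]⟩
  simp only [h]

theorem J0_mul (A : Matrix (Fin n) (Fin n) ℂ) (i j : Fin n) : (J0 n * A) i j = A i.rev j := by
  rw [Matrix.mul_apply, Finset.sum_eq_single i.rev]
  · rw [J0_apply, if_pos rfl, one_mul]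
  · intro k _ hk
    rw [J0_apply, if_neg hk, zero_mul]
  · intro h
    exact absurd (Finset.mem_univ _) h

theorem J0_sq : J0 n * J0 n = 1 := by
  ext i j
  rw [J0_mul, J0_apply, Fin.rev_rev, Matrix.one_apply]
  simp only [eq_comm]

theorem J0_det : (J0 n).det ≠ 0 := by
  have h := congrArg Matrix.det (J0_sq (n := n))
  rw [det_mul, det_one] at h
  intro h0
  rw [h0, zero_mul] at h
  exact zero_ne_one h

theorem mem_so0' {A : Matrix (Fin n) (Fin n) ℂ} (h : Aᵀ * J0 n + J0 n * A = 0) : A ∈ so0 n := by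
  intro p q
  have h1 := congrFun (congrFun h p.rev) q
  rw [Matrix.add_apply, J0_mul, Fin.rev_rev, Matrix.zero_apply] at h1
  have h2 : (Aᵀ * J0 n) p.rev q = A q.rev p.rev := by
    have h3 : (Aᵀ * J0 n) = (J0 n * A)ᵀ := by rw [transpose_mul, J0_symm]
    rw [h3, transpose_apply, J0_mul]
  rw [h2] at h1
  linear_combination h1

/-- the bilinear form of a matrix -/
noncomputable def tl (K : Matrix (Fin n) (Fin n) ℂ) : LinearMap.BilinMap ℂ (Fin n → ℂ) ℂ := Matrix.toLinearMap₂' ℂ K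

theorem tl_apply (K : Matrix (Fin n) (Fin n) ℂ) (x y : Fin n → ℂ) : tl K x y = bf K x y :=
  Matrix.toLinearMap₂'_apply' K x y

/-- **a hyperbolic basis** -/
theorem exists_P {J : Matrix (Fin n) (Fin n) ℂ} (hJ : Jᵀ = J) (hdet : J.det ≠ 0) :
    ∃ P : Matrix (Fin n) (Fin n) ℂ, Pᵀ * J * P = J0 n := by
  have key : ∀ K : Matrix (Fin n) (Fin n) ℂ, Kᵀ = K → QuadraticMap.associated
      (LinearMap.BilinMap.toQuadraticMap (tl K)) = tl K := by
    intro K hK
    refine QuadraticMap.associated_left_inverse ℂ fun x y => ?_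
    rw [tl_apply, tl_apply]
    exact (sym_bf hK x y).symm
  obtain ⟨e⟩ := QuadraticForm.equivalent_of_isAlgClosed (K := ℂ)
    (LinearMap.BilinMap.toQuadraticMap (tl (J0 n)))
    (LinearMap.BilinMap.toQuadraticMap (tl J))
    (by rw [key _ J0_symm]; exact LinearMap.separatingLeft_toLinearMap₂'_of_det_ne_zero' J0_det)
    (by rw [key _ hJ]; exact LinearMap.separatingLeft_toLinearMap₂'_of_det_ne_zero' hdet)
  have hq : ∀ x, bf J (e x) (e x) = bf (J0 n) x x := by
    intro x
    have h := e.map_app x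
    rw [LinearMap.BilinMap.toQuadraticMap_apply, LinearMap.BilinMap.toQuadraticMap_apply, tl_apply, tl_apply] at h
    exact h
  have hb : ∀ x y, bf J (e x) (e y) = bf (J0 n) x y := by
    intro x y
    have h1 := hq (x + y)
    have h2 : e (x + y) = e x + e y := map_add e.toLinearEquiv x y
    rw [h2, bf_add_left, bf_add_right, bf_add_right, bf_add_left, bf_add_right, bf_add_right, hq, hq,
      sym_bf hJ (e x) (e y), sym_bf J0_symm x y] at h1
    linear_combination (1 / 2 : ℂ) * h1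
  refine ⟨Matrix.of fun a i => e (Pi.single i 1) a, ?_⟩
  ext i j
  have h1 := hb (Pi.single i 1) (Pi.single j 1)
  have h2 : bf (J0 n) (Pi.single i 1) (Pi.single j 1) = J0 n i j := by
    unfold bf
    rw [single_one_dotProduct, mulVec_single_one]
    rfl
  rw [← h2, ← h1]
  unfold bf
  rw [Matrix.mul_assoc, Matrix.mul_apply]
  rfl

end Pool.Agent.H84GF
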