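import Mathlib

/-!
# Generic weights on the indices of a hyperbolic basis
-/

set_option autoImplicit false

namespace Pool.Agent.H84GF

/-- `sign h · 5 ^ |h|` -/
def f5 (h : ℤ) : ℤ := Int.sign h * 5 ^ h.natAbs

theorem f5_neg (h : ℤ) : f5 (-h) = -f5 h := by
  unfold f5
  rw [Int.sign_neg, Int.natAbs_neg, neg_mul]

theorem f5_zero : f5 0 = 0 := by
  unfold f5
  simp

theorem abs_f5 {h : ℤ} (hh : h ≠ 0) : |f5 h| = 5 ^ h.natAbs := by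
  unfold f5
  rw [abs_mul, abs_pow]
  have h1 : |Int.sign h| = 1 := by
    rcases lt_or_gt_of_ne hh with h2 | h2
    · rw [Int.sign_eq_neg_one_of_neg h2]; norm_num
    · rw [Int.sign_eq_one_of_pos h2]; norm_num
  rw [h1, one_mul]
  norm_num

theorem f5_gap (h k : ℤ) : f5 h = f5 k ∨ f5 h = -f5 k ∨ 5 * |f5 h| ≤ |f5 k| ∨ 5 * |f5 k| ≤ |f5 h| := by
  have key : ∀ a b : ℤ, a.natAbs < b.natAbs → 5 * |f5 a| ≤ |f5 b| := by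
    intro a b hab
    have hb : b ≠ 0 := by
      rintro rfl
      simp at hab
    rw [abs_f5 hb]
    by_cases ha : a = 0
    · rw [ha, f5_zero]
      positivity
    · rw [abs_f5 ha, ← pow_succ']
      exact pow_le_pow_right₀ (by norm_num) hab
  rcases lt_trichotomy h.natAbs k.natAbs with h1 | h1 | h1
  · exact Or.inr (Or.inr (Or.inl (key h k h1)))
  · rcases Int.natAbs_eq_natAbs_iff.1 h1 with h2 | h2
    · exact Or.inl (by rw [h2])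
    · exact Or.inr (Or.inl (by rw [h2, f5_neg]))
  · exact Or.inr (Or.inr (Or.inr (key k h h1)))

theorem f5_eq_zero {h : ℤ} (hh : f5 h = 0) : h = 0 := by
  by_contra h0
  have h1 := abs_f5 h0
  rw [hh, abs_zero] at h1
  have h2 : (0 : ℤ) < 5 ^ h.natAbs := by positivity
  omega

theorem f5_inj {h k : ℤ} (hh : f5 h = f5 k) : h = k := by
  by_cases h0 : h = 0
  · rw [h0, f5_zero] at hh
    rw [h0, f5_eq_zero hh.symm]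
  by_cases k0 : k = 0
  · rw [k0, f5_zero] at hh
    rw [k0, f5_eq_zero hh]
  have h1 : h.natAbs = k.natAbs := by
    have h2 : (5 : ℤ) ^ h.natAbs = 5 ^ k.natAbs := by rw [← abs_f5 h0, ← abs_f5 k0, hh]
    exact Int.pow_right_injective (by norm_num) h2
  rcases Int.natAbs_eq_natAbs_iff.1 h1 with h2 | h2
  · exact h2
  · exfalso
    rw [h2, f5_neg] at hh
    have h3 : f5 k = 0 := by omega
    exact k0 (f5_eq_zero h3)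

/-- cancellation in pairs if `t₁` has the largest absolute value -/
theorem core4 {t₁ t₂ t₃ t₄ : ℤ} (h2 : t₂ = t₁ ∨ t₂ = -t₁ ∨ 5 * |t₂| ≤ |t₁|) (h3 : t₃ = t₁ ∨ t₃ = -t₁ ∨ 5 * |t₃| ≤ |t₁|)
    (h4 : t₄ = t₁ ∨ t₄ = -t₁ ∨ 5 * |t₄| ≤ |t₁|) (hs : t₁ + t₂ + t₃ + t₄ = 0) :
    (t₁ = -t₂ ∧ t₃ = -t₄) ∨ (t₁ = -t₃ ∧ t₂ = -t₄) ∨ (t₁ = -t₄ ∧ t₂ = -t₃) := by
  have key : ∀ x y : ℤ, 5 * |x| ≤ |y| → (5 * x ≤ y ∨ 5 * x ≤ -y) ∧ (-(5 * x) ≤ y ∨ -(5 * x) ≤ -y) := by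
    intro x y h
    rcases abs_cases x with ⟨h1, h1'⟩ | ⟨h1, h1'⟩ <;> rcases abs_cases y with ⟨h2, h2'⟩ | ⟨h2, h2'⟩ <;>
      rw [h1, h2] at h <;> omega
  rcases h2 with h2 | h2 | h2 <;> rcases h3 with h3 | h3 | h3 <;> rcases h4 with h4 | h4 | h4 <;>
    (try have k2 := key _ _ h2) <;> (try have k3 := key _ _ h3) <;> (try have k4 := key _ _ h4) <;>
    omega

theorem four {t₁ t₂ t₃ t₄ : ℤ} (h12 : t₁ = t₂ ∨ t₁ = -t₂ ∨ 5 * |t₁| ≤ |t₂| ∨ 5 * |t₂| ≤ |t₁|)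
    (h13 : t₁ = t₃ ∨ t₁ = -t₃ ∨ 5 * |t₁| ≤ |t₃| ∨ 5 * |t₃| ≤ |t₁|)
    (h14 : t₁ = t₄ ∨ t₁ = -t₄ ∨ 5 * |t₁| ≤ |t₄| ∨ 5 * |t₄| ≤ |t₁|)
    (h23 : t₂ = t₃ ∨ t₂ = -t₃ ∨ 5 * |t₂| ≤ |t₃| ∨ 5 * |t₃| ≤ |t₂|)
    (h24 : t₂ = t₄ ∨ t₂ = -t₄ ∨ 5 * |t₂| ≤ |t₄| ∨ 5 * |t₄| ≤ |t₂|)
    (h34 : t₃ = t₄ ∨ t₃ = -t₄ ∨ 5 * |t₃| ≤ |t₄| ∨ 5 * |t₄| ≤ |t₃|) (hs : t₁ + t₂ + t₃ + t₄ = 0) :
    (t₁ = -t₂ ∧ t₃ = -t₄) ∨ (t₁ = -t₃ ∧ t₂ = -t₄) ∨ (t₁ = -t₄ ∧ t₂ = -t₃) := by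
  have key : ∀ x y : ℤ, (x = y ∨ x = -y ∨ 5 * |x| ≤ |y| ∨ 5 * |y| ≤ |x|) → |x| ≤ |y| →
      (x = y ∨ x = -y ∨ 5 * |x| ≤ |y|) := by
    intro x y h hxy
    rcases h with h | h | h | h
    · exact Or.inl h
    · exact Or.inr (Or.inl h)
    · exact Or.inr (Or.inr h)
    · refine Or.inr (Or.inr ?_)
      have h0 := abs_nonneg x
      have h1 := abs_nonneg y
      omega
  have sw : ∀ x y : ℤ, (x = y ∨ x = -y ∨ 5 * |x| ≤ |y| ∨ 5 * |y| ≤ |x|) →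
      (y = x ∨ y = -x ∨ 5 * |y| ≤ |x| ∨ 5 * |x| ≤ |y|) := by
    intro x y h
    rcases h with h | h | h | h
    · exact Or.inl h.symm
    · exact Or.inr (Or.inl (by omega))
    · exact Or.inr (Or.inr (Or.inr h))
    · exact Or.inr (Or.inr (Or.inl h))
  by_cases m1 : |t₂| ≤ |t₁| ∧ |t₃| ≤ |t₁| ∧ |t₄| ≤ |t₁|
  · exact core4 (key _ _ (sw _ _ h12) m1.1) (key _ _ (sw _ _ h13) m1.2.1) (key _ _ (sw _ _ h14) m1.2.2) hs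
  by_cases m2 : |t₁| ≤ |t₂| ∧ |t₃| ≤ |t₂| ∧ |t₄| ≤ |t₂|
  · have := core4 (key _ _ h12 m2.1) (key _ _ (sw _ _ h23) m2.2.1) (key _ _ (sw _ _ h24) m2.2.2)
      (by omega : t₂ + t₁ + t₃ + t₄ = 0)
    omega
  by_cases m3 : |t₁| ≤ |t₃| ∧ |t₂| ≤ |t₃| ∧ |t₄| ≤ |t₃|
  · have := core4 (key _ _ h13 m3.1) (key _ _ h23 m3.2.1) (key _ _ (sw _ _ h34) m3.2.2)
      (by omega : t₃ + t₁ + t₂ + t₄ = 0)
    omega
  · have m4 : |t₁| ≤ |t₄| ∧ |t₂| ≤ |t₄| ∧ |t₃| ≤ |t₄| := by omega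
    have := core4 (key _ _ h14 m4.1) (key _ _ h24 m4.2.1) (key _ _ h34 m4.2.2)
      (by omega : t₄ + t₁ + t₂ + t₃ = 0)
    omega

/-- the weight of the index -/
def wt {n : ℕ} (i : Fin n) : ℤ := f5 ((n : ℤ) - 1 - 2 * i.val)

theorem wt_rev {n : ℕ} (i : Fin n) : wt i.rev = -wt i := by
  unfold wt
  rw [← f5_neg]
  congr 1
  rw [Fin.val_rev]
  omega

theorem wt_inj {n : ℕ} {i j : Fin n} (h : wt i = wt j) : i = j := by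
  have h1 := f5_inj h
  exact Fin.ext (by omega)

theorem wt_gap {n : ℕ} (i j : Fin n) :
    wt i = wt j ∨ wt i = -wt j ∨ 5 * |wt i| ≤ |wt j| ∨ 5 * |wt j| ≤ |wt i| := f5_gap _ _

/-- **the sums of two weights determine the pairs** -/
theorem wt_gen {n : ℕ} {i j k l : Fin n} (h : wt i + wt j = wt k + wt l) :
    (j = i.rev ∧ l = k.rev) ∨ (i = k ∧ j = l) ∨ (i = l ∧ j = k) := by
  have h1 := four (t₁ := wt i) (t₂ := wt j) (t₃ := wt k.rev) (t₄ := wt l.rev) (wt_gap _ _) (wt_gap _ _) (wt_gap _ _)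
    (wt_gap _ _) (wt_gap _ _) (wt_gap _ _) (by rw [wt_rev, wt_rev]; omega)
  simp only [wt_rev, neg_neg] at h1
  rcases h1 with ⟨h1, h2⟩ | ⟨h1, h2⟩ | ⟨h1, h2⟩
  · left
    refine ⟨wt_inj ?_, wt_inj ?_⟩
    · rw [wt_rev]; omega
    · rw [wt_rev]; omega
  · right; left
    exact ⟨wt_inj h1, wt_inj h2⟩
  · right; right
    exact ⟨wt_inj h1, wt_inj h2⟩

end Pool.Agent.H84GF
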